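import Pool.Agent.P.MP_9167e9_an.StG

/-! STAGE: assembling one stage of the construction. -/

noncomputable section
open scoped Classical ENNReal

namespace Pool.Agent.P.MP_9167e9_an

namespace Stg

theorem FB_comp {Z Z' : Type} (ε : Z ≃ Z') {X : Z' → Z' → ℂ} {Λ : ℝ} (h : FB X Λ) :
    FB (fun w w' => X (ε w) (ε w')) Λ := by
  intro s t ξ ζ
  have := h (s.map ε.toEmbedding) (t.map ε.toEmbedding) (ξ ∘ ε.symm) (ζ ∘ ε.symm)
  simpa [nsq, Finset.sum_map] using this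

theorem exists_sel {Z C : Type} (σ : Z → Z) (ic : C → C) (Rel : Z → C → Prop)
    (hσ : ∀ z, σ (σ z) = z) (hne : ∀ z, σ z ≠ z) (hic : ∀ y, ic (ic y) = y)
    (hex : ∀ z, ∃ y, Rel z y) (heq : ∀ z y, Rel z y → Rel (σ z) (ic y)) :
    ∃ p : Z → C, (∀ z, Rel z (p z)) ∧ ∀ z, p (σ z) = ic (p z) := by
  choose q hq using hex
  obtain ⟨_, -⟩ := exists_wellFoundedLT (α := Z)
  refine ⟨fun z => if z < σ z then q z else ic (q (σ z)), fun z => ?_, fun z => ?_⟩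
  · dsimp only
    split_ifs
    · exact hq z
    · have := heq _ _ (hq (σ z))
      rwa [hσ] at this
  · dsimp only
    rw [hσ]
    rcases lt_trichotomy z (σ z) with h | h | h
    · rw [if_pos h, if_neg (not_lt.2 h.le)]
    · exact absurd h.symm (hne z)
    · rw [if_pos h, if_neg (not_lt.2 h.le), hic]

variable {P : Prm} {F : Set (Cell P)} {G : Type} [Group G] {ρ : FreeGroup (P.S ⊕ P.S) →* G}
  {e : G ≃ Gam F × NN F} {Φ : Gam F → NN F →* NN F}

theorem e_one (h : GrpOut F G ρ e Φ) : e 1 = (1, 1) := by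
  have h1 := h.mul 1 1
  rw [one_mul] at h1
  have h2 : (e 1).1 = 1 := by
    have := congrArg Prod.fst h1
    simpa using this
  have h3 : (e 1).2 = 1 := by
    have := congrArg Prod.snd h1
    rw [h2, h.Φ_one] at this
    simpa using this
  exact Prod.ext h2 h3

/-- The lamps of the base copy as a subgroup of `G`. -/
def AG (h : GrpOut F G ρ e Φ) (c : Cell P) : Subgroup G where
  carrier := {g | (e g).1 = 1 ∧ (e g).2 ∈ As F c}
  one_mem' := by
    change (e 1).1 = 1 ∧ (e 1).2 ∈ As F c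
    rw [e_one h]
    exact ⟨rfl, one_mem _⟩
  mul_mem' := by
    rintro a b ⟨ha, ha'⟩ ⟨hb, hb'⟩
    change (e (a * b)).1 = 1 ∧ (e (a * b)).2 ∈ As F c
    rw [h.mul, ha, hb, h.Φ_one]
    exact ⟨one_mul _, mul_mem ha' hb'⟩
  inv_mem' := by
    rintro a ⟨ha, ha'⟩
    have h1 := h.mul a a⁻¹
    rw [mul_inv_cancel, e_one h, ha, one_mul] at h1
    have h2 : (e a⁻¹).1 = 1 := (congrArg Prod.fst h1).symm
    have h3 := congrArg Prod.snd h1
    rw [h2, h.Φ_one] at h3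
    refine ⟨h2, ?_⟩
    rw [eq_inv_of_mul_eq_one_right h3.symm]
    exact inv_mem ha'

theorem mem_AG (h : GrpOut F G ρ e Φ) (c : Cell P) (g : G) :
    g ∈ AG h c ↔ (e g).1 = 1 ∧ (e g).2 ∈ As F c := Iff.rfl

theorem rel_iff (h : GrpOut F G ρ e Φ) (c : Cell P) (g g' : G) :
    g⁻¹ * g' ∈ AG h c ↔ (e g).1 = (e g').1 ∧ (e g).2⁻¹ * (e g').2 ∈ As F c := by
  have h1 := h.mul g (g⁻¹ * g')
  rw [mul_inv_cancel_left] at h1
  rw [mem_AG]
  constructor
  · rintro ⟨h2, h3⟩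
    rw [h1, h2, h.Φ_one]
    simpa using h3
  · rintro ⟨h2, h3⟩
    have h4 : (e (g⁻¹ * g')).1 = 1 := by
      have := congrArg Prod.fst h1
      rw [← h2] at this
      simpa using this
    refine ⟨h4, ?_⟩
    rw [h1, h4, h.Φ_one] at h3
    simpa using h3

/-- The map from `G ⧸ A` to the model. -/
def toZ (h : GrpOut F G ρ e Φ) (c : Cell P) : G ⧸ AG h c → Zm F c :=
  Quotient.lift (fun g => ((e g).1, (QuotientGroup.mk (e g).2 : NN F ⧸ As F c))) (by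
    intro g g' hg
    obtain ⟨h1, h2⟩ := (rel_iff h c g g').1 (QuotientGroup.leftRel_apply.1 hg)
    exact Prod.ext h1 (QuotientGroup.eq.2 h2))

theorem toZ_mk (h : GrpOut F G ρ e Φ) (c : Cell P) (g : G) :
    toZ h c (g : G ⧸ AG h c) = ((e g).1, (QuotientGroup.mk (e g).2 : NN F ⧸ As F c)) := rfl

theorem toZ_bij (h : GrpOut F G ρ e Φ) (c : Cell P) : Function.Bijective (toZ h c) := by
  constructor
  · intro w w' hw
    obtain ⟨g, rfl⟩ := QuotientGroup.mk_surjective w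
    obtain ⟨g', rfl⟩ := QuotientGroup.mk_surjective w'
    rw [toZ_mk, toZ_mk] at hw
    exact QuotientGroup.eq.2 ((rel_iff h c g g').2
      ⟨(Prod.mk.inj hw).1, QuotientGroup.eq.1 (Prod.mk.inj hw).2⟩)
  · rintro ⟨γ, z⟩
    obtain ⟨n, rfl⟩ := QuotientGroup.mk_surjective z
    exact ⟨(e.symm (γ, n) : G), by rw [toZ_mk]; simp⟩

/-- The identification of `G ⧸ A` with the model. -/
def eZ (h : GrpOut F G ρ e Φ) (c : Cell P) : G ⧸ AG h c ≃ Zm F c :=
  Equiv.ofBijective _ (toZ_bij h c)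

theorem eZ_mk (h : GrpOut F G ρ e Φ) (c : Cell P) (g : G) :
    eZ h c (g : G ⧸ AG h c) = ((e g).1, (QuotientGroup.mk (e g).2 : NN F ⧸ As F c)) := rfl

theorem eZ_act (h : GrpOut F G ρ e Φ) (c : Cell P) (f : FreeGroup (P.S ⊕ P.S))
    (w : G ⧸ AG h c) : eZ h c (actQ ρ (AG h c) f w) = am F c f (eZ h c w) := by
  have key : ((eZ h c).permCongrHom.toMonoidHom.comp (actQ ρ (AG h c))) = am F c := by
    refine FreeGroup.ext_hom _ _ fun s => ?_
    refine Equiv.ext fun z => ?_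
    obtain ⟨w, rfl⟩ := (eZ h c).surjective z
    obtain ⟨g, rfl⟩ := QuotientGroup.mk_surjective w
    have h1 : ((eZ h c).permCongrHom.toMonoidHom.comp (actQ ρ (AG h c))) (FreeGroup.of s)
        (eZ h c (g : G ⧸ AG h c)) = eZ h c ((ρ (FreeGroup.of s) * g : G) : G ⧸ AG h c) := by
      change eZ h c (actQ ρ (AG h c) (FreeGroup.of s) ((eZ h c).symm (eZ h c _))) = _
      rw [Equiv.symm_apply_apply]
      rfl
    rw [h1, eZ_mk, eZ_mk, h.mul]
    cases s with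
    | inl s =>
      rw [h.inl]
      simp [am]
    | inr s =>
      rw [h.inr]
      simp only [am, h.Φ_lamp, one_mul, FreeGroup.lift_apply_of, Sum.elim_inr,
        Equiv.prodCongrRight_apply]
      rfl
  rw [← key]
  change _ = eZ h c (actQ ρ (AG h c) f ((eZ h c).symm (eZ h c w)))
  rw [Equiv.symm_apply_apply]

theorem Cl_eZ (h : GrpOut F G ρ e Φ) (c : Cell P) {r : ℕ} {w w' : G ⧸ AG h c}
    (hw : Cl (actQ ρ (AG h c)) r w w') : Cl (am F c) r (eZ h c w) (eZ h c w') := by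
  obtain ⟨f, h1, h2⟩ := hw
  exact ⟨f, h1, by rw [← eZ_act, h2]⟩

theorem kr_eZ (h : GrpOut F G ρ e Φ) (c : Cell P) (y : MonoidAlgebra ℂ (FreeGroup (P.S ⊕ P.S)))
    (w w' : G ⧸ AG h c) : kr (actQ ρ (AG h c)) y w w' = kr (am F c) y (eZ h c w) (eZ h c w') := by
  unfold kr
  refine Finsupp.sum_congr fun f _ => ?_
  rw [← eZ_act]
  by_cases hw : actQ ρ (AG h c) f w' = w
  · rw [if_pos hw, if_pos (congrArg _ hw)]
  · rw [if_neg hw, if_neg fun h' => hw ((eZ h c).injective h')]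

theorem Φ_bij (h : GrpOut F G ρ e Φ) (δ : Gam F) : Function.Bijective (Φ δ) := by
  refine Function.bijective_iff_has_inverse.2 ⟨Φ δ⁻¹, fun n => ?_, fun n => ?_⟩
  · rw [← h.Φ_mul, mul_inv_cancel, h.Φ_one]
  · rw [← h.Φ_mul, inv_mul_cancel, h.Φ_one]

theorem Φ_As (h : GrpOut F G ρ e Φ) (h1 : Gam1 F) {c : Cell P} (hc : c ∈ F) {ι : FreeGroup P.S}
    (hι : ι ∈ c.Pg) {n : NN F} (hn : n ∈ As F c) : Φ (mkG F ι) n ∈ As F c := by
  obtain ⟨x, hx, rfl⟩ := hn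
  have key : Par (adj F) (ZMod P.h) (EP F c 1) ≤
      (As F c).comap ((Φ (mkG F ι)).comp (mkN F)) := by
    refine (Subgroup.closure_le _).2 ?_
    rintro x ⟨f, hf, a, rfl⟩
    change Φ (mkG F ι) (lampN F f a) ∈ As F c
    rw [h.Φ_lamp]
    refine ⟨_, Subgroup.subset_closure ⟨_, ?_, a, rfl⟩, rfl⟩
    have h2 := (h1.EP_mul c 1 (mkG F ι) f).1 hf
    have h3 := h1.EP_P c hc ι hι 1
    rw [mul_one] at h3
    rwa [one_mul, h3] at h2
  exact key hx

theorem e_mul_ι (h : GrpOut F G ρ e Φ) (δ : Gam F) (g : G) :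
    e (g * e.symm (δ, 1)) = ((e g).1 * δ, Φ δ (e g).2) := by
  rw [h.mul]
  simp

theorem nrm (h : GrpOut F G ρ e Φ) (h1 : Gam1 F) {c : Cell P} (hc : c ∈ F) {ι : FreeGroup P.S}
    (hι : ι ∈ c.Pg) (a : G) (ha : a ∈ AG h c) :
    (e.symm (mkG F ι, 1))⁻¹ * a * e.symm (mkG F ι, 1) ∈ AG h c := by
  rw [mul_assoc, rel_iff, e_mul_ι h, ha.1]
  simpa using Φ_As h h1 hc hι ha.2

theorem sq_one {c : Cell P} (hc : c ∈ F) (hb : BasOut c) {ι : FreeGroup P.S}
    (hι : ι ∈ c.Pg) : mkG F ι * mkG F ι = 1 := by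
  obtain ⟨h1, h2⟩ := (hb.memP ι).1 hι
  have h3 : ι * ι ∈ c.Kg := by
    refine (hb.memK _).2 ⟨hb.mulP _ _ h1 h1 h2, Prod.ext ?_ ?_⟩
    · exact (hb.vx_mul _ _ h2).trans h2
    · change pr (ι * ι) = 0
      rw [hb.pr_mul]
      exact CharTwo.add_self_eq_zero _
  rw [← map_mul]
  exact (QuotientGroup.eq_one_iff _).2 (Subgroup.subset_normalClosure ⟨c, hc, h3⟩)

/-- The deck involution on `G ⧸ A`. -/
def io (h : GrpOut F G ρ e Φ) (h1 : Gam1 F) {c : Cell P} (hc : c ∈ F) {ι : FreeGroup P.S}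
    (hι : ι ∈ c.Pg) : G ⧸ AG h c → G ⧸ AG h c :=
  Quotient.map' (fun g => g * e.symm (mkG F ι, 1)) (by
    intro g g' hg
    rw [QuotientGroup.leftRel_apply] at hg ⊢
    have := nrm h h1 hc hι _ hg
    simpa [mul_assoc] using this)

theorem io_mk (h : GrpOut F G ρ e Φ) (h1 : Gam1 F) {c : Cell P} (hc : c ∈ F) {ι : FreeGroup P.S}
    (hι : ι ∈ c.Pg) (g : G) :
    io h h1 hc hι (g : G ⧸ AG h c) = ((g * e.symm (mkG F ι, 1) : G) : G ⧸ AG h c) := rfl

theorem exists_p (h : GrpOut F G ρ e Φ) (h1 : Gam1 F) {c : Cell P} (hc : c ∈ F) (hb : BasOut c)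
    (hl : LocOut F c) {ι : FreeGroup P.S} (hι : ι ∈ c.Pg) (hpr : pr ι = 1) :
    ∃ p : G ⧸ AG h c → c.V × ZMod 2, (∀ w, LocP F c (eZ h c w) (p w)) ∧
      ∀ w, p (io h h1 hc hι w) = ((p w).1, (p w).2 + 1) := by
  have hne : mkG F ι ≠ 1 := by
    intro h0
    have h2 := h1.pos_P c hc ι hι (c.v0, 0)
    rw [h0, mul_one, hpr] at h2
    obtain ⟨y, hy⟩ := hl.ex (pos F c (c.v0, 0), cls F c 1)
    have h3 := hl.base _ _ hy
    rw [h2] at hy
    have h4 := congrArg Prod.snd (h3.symm.trans (hl.base _ _ hy))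
    simp at h4
  refine exists_sel (io h h1 hc hι) (fun y => (y.1, y.2 + 1))
    (fun w y => LocP F c (eZ h c w) y) ?_ ?_ ?_ (fun w => hl.ex _) ?_
  · intro w
    obtain ⟨g, rfl⟩ := QuotientGroup.mk_surjective w
    rw [io_mk, io_mk]
    apply (eZ h c).injective
    rw [eZ_mk, eZ_mk, e_mul_ι h, e_mul_ι h]
    dsimp only
    rw [mul_assoc, ← h.Φ_mul, sq_one hc hb hι, mul_one, h.Φ_one]
  · intro w hw
    obtain ⟨g, rfl⟩ := QuotientGroup.mk_surjective w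
    have := congrArg Prod.fst (congrArg (eZ h c) hw)
    rw [io_mk, eZ_mk, eZ_mk, e_mul_ι h] at this
    exact hne (by simpa using this)
  · rintro ⟨v, x⟩
    refine Prod.ext rfl ?_
    change x + 1 + 1 = x
    rw [add_assoc, CharTwo.add_self_eq_zero, add_zero]
  · intro w y hy
    obtain ⟨g, rfl⟩ := QuotientGroup.mk_surjective w
    rw [io_mk, eZ_mk, e_mul_ι h]
    have := hl.equi ι hι _ (Φ_bij h (mkG F ι)) (h.Φ_lamp _) _ _ _ hy
    rwa [hpr] at this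

/-- The location data of a stage. -/
def loc (h : GrpOut F G ρ e Φ) {c : Cell P} (hb : BasOut c) (hl : LocOut F c) (hL : 1 ≤ c.L)
    (σ : G ⧸ AG h c → G ⧸ AG h c) (p : G ⧸ AG h c → c.V × ZMod 2)
    (hp : ∀ w, LocP F c (eZ h c w) (p w)) (hσ : ∀ w, p (σ w) = ((p w).1, (p w).2 + 1)) :
    Loc (actQ ρ (AG h c)) σ c.R where
  C := c.V × ZMod 2
  fin := inferInstance
  dC := dC c.τ
  Ht := HtC c.τ
  par := Prod.snd
  ic y := (y.1, y.2 + 1)
  θ := 100 * c.L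
  p := p
  d_self := hb.ht.d_self
  d_symm := hb.ht.d_symm
  d_tri := hb.ht.d_tri
  Ht_add a b d h1 h2 := hb.ht.add a b d (by
    have : c.g = 10 ^ 4 * c.L := rfl
    omega)
  Ht_par a b _ := hb.ht.par a b
  ic_ic := by
    rintro ⟨v, x⟩
    refine Prod.ext rfl ?_
    change x + 1 + 1 = x
    rw [add_assoc, CharTwo.add_self_eq_zero, add_zero]
  d_ic := hb.ht.d_ic
  Ht_ic := hb.ht.Ht_ic
  par_ic _ := rfl
  p_io := hσ
  lip w w' hw := hl.lip _ _ _ _ (Cl_eZ h c hw) (hp w) (hp w')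
  contr r := by
    refine ((hl.contr r).preimage (eZ h c).injective.injOn).subset ?_
    rintro w ⟨w', h1, h2⟩
    exact ⟨_, _, _, Cl_eZ h c h1, hp w, hp w', h2⟩
  far a := by
    obtain ⟨b, hb'⟩ := hb.ht.far a (100 * c.L + 1) (by
      have : c.g = 10 ^ 4 * c.L := rfl
      omega)
    refine ⟨(eZ h c).symm (pos F c b, cls F c 1), ?_⟩
    have h1 := hp ((eZ h c).symm (pos F c b, cls F c 1))
    rw [Equiv.apply_symm_apply] at h1
    rw [hl.base _ _ h1, hb.ht.d_symm, hb']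
    omega

end Stg

theorem pStage (hBlk : StBlk) (hTw : StTwist) (hLocn : StLocn) (hNF : StNF) (hGam1 : StGam1)
    (hBas : StBas) : StStage := by
  intro p _ hp2 hpt
  obtain ⟨T, B, j0, hT⟩ := hBlk p hp2 hpt
  refine ⟨T, B, j0, fun P hj hS hh n => ?_⟩
  obtain ⟨R0, hR0⟩ := hTw P n
  refine ⟨R0, fun F G _ ρ e Φ hA h hB c hc hR Y hY hH => ?_⟩
  have hb : BasOut c := hBas P c (by have := hA.j_big; omega) (hA.ok c hc)
  have h1 := hGam1 P F hA
  have hl := hLocn P F hA c hc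
  have hL : 1 ≤ c.L := Nat.one_le_pow _ _ (by have := (hA.ok c hc).R_big; omega)
  obtain ⟨ι, hι, hpr⟩ := hb.iota
  obtain ⟨blk, b1, b2, b3, b4, b5, b6⟩ := hT P F G ρ e Φ hA h hj hS hh hB c hc ι hι hpr
  obtain ⟨q, hq, hq'⟩ := Stg.exists_p h h1 hc hb hl hι hpr
  refine ⟨⟨Stg.AG h c, ?_, e.symm (mkG F ι, 1), Stg.nrm h h1 hc hι, ?_, Stg.io h h1 hc hι,
    Stg.io_mk h h1 hc hι, blk, b1, b2, fun a ha g g' => b3 a g g' ha.1, b4, b5, b6,
    Stg.loc h hb hl hL _ q hq hq', ?_⟩⟩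
  · have := (hNF P F hA).finA c hc
    refine Finite.of_injective (fun a : Stg.AG h c => (⟨(e a).2, a.2.2⟩ : As F c)) ?_
    intro a a' haa
    exact Subtype.ext (e.injective (Prod.ext (a.2.1.trans a'.2.1.symm) (congrArg Subtype.val haa)))
  · rw [Stg.mem_AG, Stg.e_mul_ι h]
    simp [Stg.sq_one hc hb hι]
  · intro y hy Λ hΛ φ
    have h2 : FB (kr (am F c) y) Λ := by
      have := Stg.FB_comp (Stg.eZ h c).symm hΛ
      simpa [Stg.kr_eZ] using this
    have h3 := hR0 F hA c hc hR Y hY hH (fun z => q ((Stg.eZ h c).symm z))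
      (fun z => by simpa using hq ((Stg.eZ h c).symm z)) y hy Λ h2 φ
    have h4 := Stg.FB_comp (Stg.eZ h c) h3
    have h5 : tw (fun w w' => HtC c.τ (q w) (q w')) φ (kr (actQ ρ (Stg.AG h c)) y) =
        fun w w' => tw (fun z z' => HtC c.τ (q ((Stg.eZ h c).symm z)) (q ((Stg.eZ h c).symm z')))
          φ (kr (am F c) y) (Stg.eZ h c w) (Stg.eZ h c w') := by
      funext w w'
      simp [tw, Stg.kr_eZ]
    change FB (tw (fun w w' => HtC c.τ (q w) (q w')) φ (kr (actQ ρ (Stg.AG h c)) y)) _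
    rw [h5]
    exact h4

end Pool.Agent.P.MP_9167e9_an
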